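import Pool.Agent.R858.Ninth

/-!
# MP_f76626_ag: the inequality of Q1 fails for all curves of genus 26, 27 and 29 with `(∗)`

Let `C` satisfy `(∗)` and put `γ = [(g - 1) / 2]`. The determinant `L` of a bundle computing
`Cliff_2(C) = γ / 2 + 2` has degree `γ + 8` and `h⁰(L) = 5`. By Riemann–Roch `K - L` has degree
`2 g - 10 - γ` and `h⁰(K - L) = g - 4 - γ`. For `g = 26, 27` this is a `g^9_30`, resp. a `g^9_31`, and for
`g = 29` it is a `g^10_34`, so that `d_9 ≤ 33`; while `3 Cliff_2(C) + 6` is `30`, `31.5`, resp. `33`.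

Curves are given by their function fields, see `Pool/Agent/Helper395/CS/Defs.lean`; bundles are
described in `Pool/Agent/Helper395/BC/Defs.lean`, and `Cliff_n` in `Pool/Agent/TH186/Defs.lean`.
-/

namespace Pool.Agent.Results.MP_f76626_ag.NinthGonality

open Pool.Agent.Helper395.CS hiding genus
open Pool.Agent.Helper395.BC
open Pool.Agent.R858.BN
open Pool.Agent.TH186 (IsCliff)

/-- `d` is the number `d_r` of the gonality sequence: the least degree of a line bundle `L` with
`h⁰(L) ≥ r + 1`. -/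
def IsGonality (K : Type) [Field K] [Algebra ℂ K] (r : ℕ) (d : ℤ) : Prop :=
  IsLeast {e : ℤ | ∃ L : LineBundle K, L.degree = e ∧ r + 1 ≤ Module.finrank ℂ (H0 L)} d

/-- the number `[(g - 1) / 2]` -/
noncomputable def maxCliff (K : Type) [Field K] [Algebra ℂ K] : ℕ := (genus K - 1) / 2

/-- condition `(∗)`: `Cliff(C) = [(g - 1) / 2]` and `Cliff_2(C) = [(g - 1) / 2] / 2 + 2` -/
def Star (K : Type) [Field K] [Algebra ℂ K] : Prop :=
  IsCliff K 1 (maxCliff K : ℚ) ∧ IsCliff K 2 ((maxCliff K : ℚ) / 2 + 2)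

theorem gonality_exists {K : Type} [Field K] [Algebra ℂ K] (hK : IsCurve K) (hg : genus K ≠ 0)
    {r : ℕ} (hr : 1 ≤ r) {L : LineBundle K} (hL : r + 1 ≤ Module.finrank ℂ (H0 L)) :
    ∃ d, IsGonality K r d ∧ d ≤ L.degree := by
  classical
  have hpos : ∀ M : LineBundle K, r + 1 ≤ Module.finrank ℂ (H0 M) → 0 < M.degree :=
    fun M hM => degree_pos hK hg (by omega)
  have hex : ∃ n : ℕ, ∃ M : LineBundle K, M.degree = n ∧ r + 1 ≤ Module.finrank ℂ (H0 M) :=
    ⟨L.degree.toNat, L, by have := hpos L hL; omega, hL⟩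
  refine ⟨Nat.find hex, ⟨Nat.find_spec hex, ?_⟩, ?_⟩
  · rintro e ⟨M, hM, hM2⟩
    have h1 := hpos M hM2
    have h2 : Nat.find hex ≤ e.toNat := Nat.find_min' hex ⟨M, by omega, hM2⟩
    omega
  · have h1 := hpos L hL
    have h2 : Nat.find hex ≤ L.degree.toNat := Nat.find_min' hex ⟨L, by omega, hL⟩
    omega

/-- Let the curve `C` satisfy `(∗)`, let `g` be its genus and `γ = [(g - 1) / 2]`.
(1) If `g ≥ 11` there is a line bundle `M` of degree `2 g - 10 - γ` with `h⁰(M) = g - 4 - γ`.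
(2) If `g` is `26`, `27` or `29`, then `d_9 / 3 - 2 > Cliff_2(C)` is false. More precisely
`d_9 = 30` for `g = 26`, `d_9 = 31` for `g = 27`, and `32 ≤ d_9 ≤ 33` for `g = 29`. -/
theorem result (K : Type) [Field K] [Algebra ℂ K] (hK : IsCurve K) (h : Star K) :
    (11 ≤ genus K → ∃ M : LineBundle K, M.degree = 2 * (genus K : ℤ) - 10 - maxCliff K ∧
      (Module.finrank ℂ (H0 M) : ℤ) = (genus K : ℤ) - 4 - maxCliff K) ∧
    (genus K = 26 ∨ genus K = 27 ∨ genus K = 29 →
      ∃ (d : ℤ) (c : ℚ), IsGonality K 9 d ∧ IsCliff K 2 c ∧ ¬ (d : ℚ) / 3 - 2 > c) ∧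
    (genus K = 26 → IsGonality K 9 30) ∧
    (genus K = 27 → IsGonality K 9 31) ∧
    (genus K = 29 → ∃ d, IsGonality K 9 d ∧ 32 ≤ d ∧ d ≤ 33) := by
  obtain ⟨h1, h2⟩ := h
  have key : 11 ≤ genus K → ∃ M : LineBundle K, M.degree = 2 * (genus K : ℤ) - 10 - maxCliff K ∧
      (Module.finrank ℂ (H0 M) : ℤ) = (genus K : ℤ) - 4 - maxCliff K := by
    intro hg
    have hg0 : genus K ≠ 0 := by omega
    obtain ⟨L, hL1, hL2⟩ := Pool.Agent.R858.Ninth.exists_four (γ := (maxCliff K : ℤ)) hK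
      (by unfold maxCliff; omega) (by unfold maxCliff; omega) (by exact_mod_cast h1)
      (by rw [Int.cast_natCast]; exact h2)
    obtain ⟨-, h3⟩ := rrL hK hg0 L
    refine ⟨lmul (can hK hg0) (linv L), ?_, ?_⟩
    · rw [lmul_degree, linv_degree, can_degree, hL1]
      ring
    · unfold Pool.Agent.TH186.l0 at hL2
      rw [hL2, hL1] at h3
      push_cast at h3 ⊢
      omega
  have low : ∀ (hg0 : genus K ≠ 0) (d : ℤ), IsGonality K 9 d →
      (maxCliff K : ℤ) + 18 ≤ d ∨ (8 : ℤ) + genus K ≤ d := by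
    intro hg0 d hd
    obtain ⟨L, hL1, hL2⟩ := hd.1
    have h3 := Pool.Agent.R858.Ninth.cliff_line hK hg0 (γ := (maxCliff K : ℤ))
      (by exact_mod_cast h1) L
    unfold Pool.Agent.TH186.l0 at h3
    omega
  have h26 : genus K = 26 → IsGonality K 9 30 := by
    intro hg
    have hg0 : genus K ≠ 0 := by omega
    have hm : maxCliff K = 12 := by unfold maxCliff; omega
    obtain ⟨M, hM1, hM2⟩ := key (by omega)
    obtain ⟨d, hd1, hd2⟩ := gonality_exists hK hg0 (r := 9) (by norm_num) (L := M) (by omega)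
    have h3 := low hg0 d hd1
    have h4 : d = 30 := by omega
    rw [← h4]
    exact hd1
  have h27 : genus K = 27 → IsGonality K 9 31 := by
    intro hg
    have hg0 : genus K ≠ 0 := by omega
    have hm : maxCliff K = 13 := by unfold maxCliff; omega
    obtain ⟨M, hM1, hM2⟩ := key (by omega)
    obtain ⟨d, hd1, hd2⟩ := gonality_exists hK hg0 (r := 9) (by norm_num) (L := M) (by omega)
    have h3 := low hg0 d hd1
    have h4 : d = 31 := by omega
    rw [← h4]
    exact hd1
  have h29 : genus K = 29 → ∃ d, IsGonality K 9 d ∧ 32 ≤ d ∧ d ≤ 33 := by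
    intro hg
    have hg0 : genus K ≠ 0 := by omega
    have hm : maxCliff K = 14 := by unfold maxCliff; omega
    obtain ⟨M, hM1, hM2⟩ := key (by omega)
    obtain ⟨p⟩ : Nonempty (Point K) := point_nonempty hK
    have h5 := lsubl_finrank hK hg0 M [p]
    have h6 := lsubl_degree M [p]
    simp only [List.length_singleton] at h5 h6
    obtain ⟨d, hd1, hd2⟩ := gonality_exists hK hg0 (r := 9) (by norm_num) (L := lsubl M [p])
      (by omega)
    have h3 := low hg0 d hd1
    exact ⟨d, hd1, by omega, by omega⟩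
  refine ⟨key, ?_, h26, h27, h29⟩
  rintro (hg | hg | hg)
  · have hm : maxCliff K = 12 := by unfold maxCliff; omega
    refine ⟨30, _, h26 hg, h2, ?_⟩
    rw [hm]
    norm_num
  · have hm : maxCliff K = 13 := by unfold maxCliff; omega
    refine ⟨31, _, h27 hg, h2, ?_⟩
    rw [hm]
    norm_num
  · have hm : maxCliff K = 14 := by unfold maxCliff; omega
    obtain ⟨d, hd1, hd2, hd3⟩ := h29 hg
    refine ⟨d, _, hd1, h2, ?_⟩
    rw [hm]
    have h7 : (d : ℚ) ≤ 33 := by exact_mod_cast hd3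
    push_cast
    linarith

end Pool.Agent.Results.MP_f76626_ag.NinthGonality
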